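import Pool.Agent.TH125.Tw.Five

/-!
# Derived invariance of the Hodge numbers of fivefolds with semiample (anti-)canonical bundle

Let `X` be a smooth projective complex variety of dimension `5` such that `K_X` or `-K_X` is semiample
and not torsion, with (anti-)Iitaka fibration `f : X → B`, `dim B = 5 - d ≥ 1`, and `D(X) ≃ D(Y)`.
Then `Y` has the same property with the same base `B`, and the equivalence is linear over `B` (see
`MP_b4fe5e_ag.SmallIitakaFibres` for the relative version of the Mukai isometry, the structures
`Fibration` and `RelativeTransform`).  For some `r ≠ 0` in `ℤ` the classes `D = r c₁` on `X` and `Y`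
are the inverse images of the same very ample divisor class of `B`. By a theorem of Toda
the intersections of `j` corresponding general members of `|D|` on `X` and on `Y` are derived
equivalent (`cut j`).

The theorem: all Hodge numbers of `X` and `Y` agree.

The proof:

* the Euler numbers of the intersections of members of `|D|` are preserved, and determine the
  intersection numbers `∫ c_{5-j} D^j`, `j ≥ 1`, so the Chern number `c₁ c₄` is preserved;
* by the formula of Libgober and Wood `∑ (-1)^{p+q} (p - n/2)^2 h^{p,q}` is preserved;
* `h^{0,2}` and `h^{0,1}` are preserved by `MP_b4fe5e_ag.SmallIitakaFibres`;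
* the signature and the dimension of the Mukai pairing (`MP_b4fe5e_ag.HodgeInertia`) determine all
  Hodge numbers of fivefolds but `h^{0,1}`, `h^{0,2}` and `h^{1,1}`.

The case that `K_X` is torsion is `MP_b4fe5e_ag.TorsionCanonicalFivefolds`.
-/

namespace Pool.Agent.Results.MP_b4fe5e_ag.SemiampleFivefolds

open Pool.Agent.TH125.Tw

/-- **Theorem.** -/
theorem result {d : ℕ} (hd : d ≤ 4) {ι : Type} [Fintype ι] [DecidableEq ι] {one : ι}
    {e : ι → ℕ → ℕ} (X Y : Fibration 5 d ι one e) (Φ : RelativeTransform X Y) {r : ℚ} (hr : r ≠ 0)
    (S : LinearSections X.base d r) (T : LinearSections Y.base d r)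
    (Ψ : ∀ j, 1 ≤ j → j ≤ 5 - d → Nonempty (Transform (S.cut j) (T.cut j))) (p q : ℕ) :
    X.base.hodgeNumber p q = Y.base.hodgeNumber p q :=
  fivefolds' Φ hd (moment_eq hr S T Φ.total Ψ) p q

end Pool.Agent.Results.MP_b4fe5e_ag.SemiampleFivefolds
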