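import Pool.Agent.TH125.Tw.Fibre

/-!
# Derived invariance of `h^{0,q}` for varieties with small Iitaka fibres

Let `X` be a smooth projective complex variety of dimension `n` with semiample canonical or
anticanonical bundle, and `f : X → B` its (anti-)Iitaka fibration, with general fibres `F` of
dimension `d`, so `d = n - κ(X)` if `K_X` is semiample. If `D(X) ≃ D(Y)` then `Y` has the same
property with the same base `B`, the equivalence is linear over `B`, and it induces equivalences
of the general fibres (Toda).  Let `B° ⊂ B` be an open subset over which everything is smooth.
The Mukai vectors of the kernels over the points of `B°` are flat, so one obtains an isomorphism of the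
variations of Hodge structure `⨁ R^k f_* ℂ` over `B°` which preserves `p - q` and the Mukai
pairing.

The variations `R^k f_* ℂ` are semisimple. For a simple complex polarizable variation `s` let `M_s` be
the multiplicity space of `s` in `⨁ R^k f_* ℂ` (`fibre s`). It has a Hodge decomposition (Deligne;
we normalise the types of `s` such that they are `(r, -r)`, and the largest `r` is zero), a hermitian
pairing and a Lefschetz operator, with the hard Lefschetz theorem and the Hodge–Riemann relations,
like the cohomology of a variety of dimension `d` with values in a unitary flat line bundle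
(`Twisted d`).  The equivalence induces isomorphisms of the `M_s` which preserve `p - q` and
the Mukai pairing (`Transform`).

By Kollár's theorem `H^q(X, ω) = ⨁ H^{q-i}(B, R^i f_* ω)`, and `R^i f_* ω = ⨁_s E_s ⊗ M_s^{d,i}`
(Kollár, Saito) where `E_s` is a coherent sheaf on `B` which depends only on `s`.

The theorem: if `d ≤ 4` then `h^{0,q}(X) = h^{0,q}(Y)` for all `q`.

The proof: by the signature of the Mukai pairing on the `M_s` the numbers `dim M_s^{d,i}` for `i ≤ 2`
are preserved; `i = d` and `i = d - 1` are dual to the connectedness of the fibres and to `R^1 f_* ℂ`
(Popa–Schnell for the generic fibres). So all `h^q(X, ω)` are preserved if `d ≤ 4`.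
-/

namespace Pool.Agent.Results.MP_b4fe5e_ag.SmallIitakaFibres

open Pool.Agent.TH125.Tw

/-- **Theorem.** -/
theorem result {n d : ℕ} (hd : d ≤ 4) {ι : Type} [Fintype ι] [DecidableEq ι] {one : ι}
    {e : ι → ℕ → ℕ} (X Y : Fibration n d ι one e) (Φ : RelativeTransform X Y) (q : ℕ) :
    X.base.hodgeNumber 0 q = Y.base.hodgeNumber 0 q :=
  Φ.hodge_zero hd q

end Pool.Agent.Results.MP_b4fe5e_ag.SmallIitakaFibres
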