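import Pool.Agent.TH125.Tw.Torsion

/-!
# Derived invariance of Hodge numbers: fivefolds with torsion canonical class

Let `X` and `Y` be smooth projective complex varieties of dimension `5` with `c₁ = 0` in
`H²(·, ℚ)`, so that the canonical bundle `ω` is a torsion line bundle, and hence a unitary flat line
bundle, and `D(X) ≃ D(Y)`.  The equivalence commutes with the Serre functors and lifts to the
canonical covers (Bridgeland–Maciocia); taking the eigenspaces in the cohomology of the covers one
obtains isomorphisms `H^*(X, ω^k) → H^*(Y, ω^k)` for all `k` which preserve the difference `p - q` of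
the Hodge types (`H^{p,q} = H^q(Ω^p ⊗ ω^k)`) and the (sesquilinear) Mukai pairing
`∫ exp(c₁ / 2) x^∨ conj(y)`, where the flat metric of `ω^k` is used.  The theorem uses `k = 0`
(`base`) and `k = 1` (`twist`).

The theorem: all Hodge numbers are derived invariants in this case.

The proof: the relations of `MP_b4fe5e_ag.HodgeInertia` hold for the twisted Hodge numbers
(the same proof, as the hard Lefschetz theorem and the Hodge–Riemann relations hold for unitary flat
line bundles).  They say that `h^{0,3}(ω)` is a derived invariant, which is `h^{5,3} = h^{0,2}`; in the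
same way one gets `h^{0,1}`.  The relations then leave only the sum of `h^{1,1}` and `h^{2,2}`; these
two are determined by the formula
`∑ (-1)^{p+q} (p - n/2)^2 h^{p,q} = (n / 12) c_n + (1 / 6) c_1 c_{n-1}` of Libgober and Wood, where
`c_1 = 0` and `c_n = ∑ (-1)^{p+q} h^{p,q}` is a derived invariant.
-/

namespace Pool.Agent.Results.MP_b4fe5e_ag.TorsionCanonicalFivefolds

open Pool.Agent.TH125.Tw

/-- **Theorem.** -/
theorem result (X Y : TorsionCanonical 5) (hX : LibgoberWood X.base) (hY : LibgoberWood Y.base)
    (Φ₀ : Transform X.base Y.base) (Φ₁ : Transform X.twist Y.twist) (p q : ℕ) :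
    X.base.hodgeNumber p q = Y.base.hodgeNumber p q :=
  fivefolds hX hY Φ₀ Φ₁ p q

end Pool.Agent.Results.MP_b4fe5e_ag.TorsionCanonicalFivefolds
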