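import Pool.Agent.TH125.Tw.Torsion

/-!
# Derived invariance of Hodge numbers: `h^{0,2}` for varieties with torsion canonical class

Let `X` and `Y` be smooth projective complex varieties of dimension `n ≥ 2` with `c₁ = 0` in
`H²(·, ℚ)`, so that the canonical bundle `ω` is a torsion line bundle, and hence a unitary flat line
bundle, and `D(X) ≃ D(Y)`.  The equivalence commutes with the Serre functors and lifts to the
canonical covers (Bridgeland–Maciocia); taking the eigenspaces in the cohomology of the covers one
obtains an isomorphism `H^*(X, ω) → H^*(Y, ω)` which preserves the difference `p - q` of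
the Hodge types (`H^{p,q} = H^q(Ω^p ⊗ ω)`) and the (sesquilinear) Mukai pairing
`∫ exp(c₁ / 2) x^∨ conj(y)`, where the flat metric of `ω` is used.

The theorem: `h^{0,2}(X) = h^{0,2}(Y)`, in every dimension `n`.

The proof: for a unitary flat line bundle `L` the form `∫ x^∨ conj(y)` on
`⨁_{p-q=j} H^q(Ω^p ⊗ L)` has, for `p + q = n`, `p - q = j`, the negative or positive index
`2 (h^{p-1,q-1}(L) + h^{p-3,q-3}(L) + ⋯)` by the Hodge–Riemann relations.  For `p = 1` and `L = ω` this
is `2 h^{0,n-2}(ω) = 2 h^{n,n-2} = 2 h^{0,2}`.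
-/

namespace Pool.Agent.Results.MP_b4fe5e_ag.TorsionCanonicalTwoForms

open Pool.Agent.TH125.Tw

/-- **Theorem.** -/
theorem result {n : ℕ} (hn : 2 ≤ n) (X Y : TorsionCanonical n)
    (Φ : Transform X.twist Y.twist) :
    X.base.hodgeNumber 0 2 = Y.base.hodgeNumber 0 2 :=
  TorsionCanonical.hodge_two Φ hn

end Pool.Agent.Results.MP_b4fe5e_ag.TorsionCanonicalTwoForms
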